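import Pool.Agent.H10.T2.Targets5

/-!
# Module QD (MP_657073_al): existence of the factor group of a character triple
-/

open scoped Classical ComplexConjugate
open AMc AMe AMt Pool.Agent.H77.EA.All

namespace H46.T2

theorem qd : T_QD := by
  intro Γ _ _ K U θ H _ _ p i τ hT
  have hnor : (i.range).Normal := by
    constructor
    rintro _ ⟨k, rfl⟩ a
    obtain ⟨k', hk'⟩ := hT.cjk a k
    exact ⟨k', hk'⟩
  obtain ⟨-, -, ⟨d, hd0, hd⟩, -⟩ := fS1 Γ K θ hT.irr
  have hτ1 : τ 1 ≠ 0 := by
    have h1 := hT.res 1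
    rw [map_one, OneMemClass.coe_one, hd] at h1
    rw [h1]
    exact_mod_cast hd0.ne'
  have hτz : ∀ z, p z = 1 → τ z ≠ 0 := by
    intro z hz h0
    have hc : z ∈ Subgroup.center H := by
      rw [Subgroup.mem_center_iff]
      intro a
      exact (hT.kerp z hz a).symm
    have h2 := (fZH H τ hT.tau z hc).2
    rw [h0, zero_div, zero_pow (orderOf_pos z).ne'] at h2
    exact zero_ne_one h2
  have hinj : ∀ z z', p z = 1 → p z' = 1 → QuotientGroup.mk' i.range z = QuotientGroup.mk' i.range z' →
      z = z' := by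
    intro z z' hz hz' h
    have h1 : z⁻¹ * z' ∈ i.range := by
      have := QuotientGroup.eq.1 h
      exact this
    obtain ⟨k, hk⟩ := h1
    have h2 : (k : Γ) = 1 := by
      have := hT.pi k
      rw [hk, map_mul, map_inv, hz, hz'] at this
      simpa using this.symm
    have h3 : k = 1 := Subtype.ext h2
    rw [h3, map_one] at hk
    have := inv_mul_eq_one.1 hk.symm
    exact this
  refine ⟨H ⧸ i.range, inferInstance, Fintype.ofFinite _, QuotientGroup.mk' i.range,
    p.ker.map (QuotientGroup.mk' i.range),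
    fun b => if h : ∃ z, p z = 1 ∧ QuotientGroup.mk' i.range z = b then τ 1 / τ h.choose else 0,
    ?_⟩
  refine ⟨hT, QuotientGroup.mk'_surjective _, ?_, rfl, ?_⟩
  · intro a
    rw [← MonoidHom.mem_ker, QuotientGroup.ker_mk']
    rfl
  · intro z hz
    have h : ∃ z', p z' = 1 ∧ QuotientGroup.mk' i.range z' = QuotientGroup.mk' i.range z :=
      ⟨z, hz, rfl⟩
    have h1 := hinj _ _ h.choose_spec.1 hz h.choose_spec.2
    rw [dif_pos h, h1]
    exact div_mul_cancel₀ _ (hτz z hz)

end H46.T2
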